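import Pool.Agent.R489.UPS.Count

/-!
# Minimal universal point sets for planar graphs can be exponentially large

For every `k ≥ 4` there is an inclusion-minimal configuration that is universal for the
`k`-vertex planar graphs and has at least `2 ^ (k / 2) / (6 k ^ 3)` points; in particular
the largest size `M(k)` of such a configuration is not bounded by a polynomial.
-/

set_option autoImplicit false

namespace Pool.Agent.Results.MP_87448f_co

/-- `p` is a planar straight-line drawing of `G`: the vertices go to different points, no edge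
passes through the image of a vertex other than its endpoints, and the segments of two different
edges meet only in common endpoints. -/
def IsDrawing {V : Type} (G : SimpleGraph V) (p : V → ℝ × ℝ) : Prop :=
  Function.Injective p ∧
  (∀ a b c : V, G.Adj a b → c ≠ a → c ≠ b → p c ∉ segment ℝ (p a) (p b)) ∧
  (∀ a b c d : V, G.Adj a b → G.Adj c d → s(a, b) ≠ s(c, d) →
    segment ℝ (p a) (p b) ∩ segment ℝ (p c) (p d) ⊆ {p a, p b} ∩ {p c, p d})

/-- a graph is planar when it has a planar straight-line drawing (Fáry) -/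
def IsPlanar {V : Type} (G : SimpleGraph V) : Prop := ∃ p : V → ℝ × ℝ, IsDrawing G p

/-- the configuration `S` supports `G` -/
def Supports (S : Finset (ℝ × ℝ)) {V : Type} (G : SimpleGraph V) : Prop :=
  ∃ p : V → ℝ × ℝ, IsDrawing G p ∧ ∀ v, p v ∈ S

/-- `S` supports all planar graphs with at most `k` vertices -/
def Universal (k : ℕ) (S : Finset (ℝ × ℝ)) : Prop :=
  ∀ j ≤ k, ∀ G : SimpleGraph (Fin j), IsPlanar G → Supports S G

/-- inclusion-minimal configurations universal for the `k`-vertex planar graphs -/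
def IsObstacle (k : ℕ) (S : Finset (ℝ × ℝ)) : Prop :=
  Universal k S ∧ ∀ T : Finset (ℝ × ℝ), T ⊂ S → ¬ Universal k T

open Pool.Agent.R489.UPS in
theorem ExponentialObstacles.lower (k : ℕ) (hk : 4 ≤ k) :
    ∃ S : Finset (ℝ × ℝ), IsObstacle k S ∧ 2 ^ k ≤ 32 * k ^ 6 * S.card ^ 2 := by
  classical
  obtain ⟨m, rfl⟩ : ∃ m, k = m + 4 := ⟨k - 4, by omega⟩
  obtain ⟨N, A, hA, hAk, hAG⟩ := clusters (m + 4)
  let S0 : Finset (ℝ × ℝ) := Finset.univ.biUnion A
  have hU : Universal (m + 4) S0 := by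
    intro j hj G hG
    obtain ⟨i, p, hp, hpi⟩ := hAG j hj G hG
    exact ⟨p, hp, fun v => Finset.mem_biUnion.2 ⟨i, Finset.mem_univ i, hpi v⟩⟩
  obtain ⟨S, hSS0, hS⟩ := exists_minimal_le_of_wellFoundedLT (Universal (m + 4)) S0 hU
  refine ⟨S, ⟨hS.1, ?_⟩, ?_⟩
  · intro T hT hTU
    exact hT.2 (hS.2 hTU hT.1)
  · apply final_bound
    apply count hA hAk
    · intro p hp
      obtain ⟨i, _, hi⟩ := Finset.mem_biUnion.1 (hSS0 hp)
      exact ⟨i, hi⟩
    · intro s hs
      exact hS.1 (4 + m) (by omega) (T s m) (T_planar hs)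

theorem ExponentialObstacles.poly_lt (P : Polynomial ℝ) :
    ∃ k : ℕ, 4 ≤ k ∧ ∀ n : ℕ, 2 ^ k ≤ 32 * k ^ 6 * n ^ 2 → P.eval (k : ℝ) < n := by
  set C : ℝ := ∑ i ∈ Finset.range (P.natDegree + 1), |P.coeff i| with hC
  have hC0 : 0 ≤ C := Finset.sum_nonneg (fun i _ => abs_nonneg _)
  set d : ℕ := P.natDegree with hd
  have hP : ∀ k : ℕ, 1 ≤ k → P.eval (k : ℝ) ≤ C * (k : ℝ) ^ d := by
    intro k hk
    rw [Polynomial.eval_eq_sum_range, hC, Finset.sum_mul]
    apply Finset.sum_le_sum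
    intro i hi
    have hk1 : (1 : ℝ) ≤ k := by exact_mod_cast hk
    have h1 : (k : ℝ) ^ i ≤ (k : ℝ) ^ d :=
      pow_le_pow_right₀ hk1 (Nat.lt_succ_iff.1 (Finset.mem_range.1 hi))
    calc P.coeff i * (k : ℝ) ^ i ≤ |P.coeff i| * (k : ℝ) ^ i :=
          mul_le_mul_of_nonneg_right (le_abs_self _) (by positivity)
      _ ≤ |P.coeff i| * (k : ℝ) ^ d := mul_le_mul_of_nonneg_left h1 (abs_nonneg _)
  have hlim := tendsto_pow_const_div_const_pow_of_one_lt (2 * d + 6) (r := (2 : ℝ)) (by norm_num)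
  have hpos : (0 : ℝ) < 1 / (32 * C ^ 2 + 1) := by positivity
  have hev := (hlim.eventually (gt_mem_nhds hpos)).and (Filter.eventually_ge_atTop 4)
  obtain ⟨k, hk, hk4⟩ := hev.exists
  refine ⟨k, hk4, fun n hn => ?_⟩
  have hk1 : (1 : ℝ) ≤ k := by
    have : 1 ≤ k := by omega
    exact_mod_cast this
  refine lt_of_le_of_lt (hP k (by omega)) ?_
  by_contra hcon
  have hcon : (n : ℝ) ≤ C * (k : ℝ) ^ d := not_lt.1 hcon
  have h1 : (2 : ℝ) ^ k ≤ 32 * (k : ℝ) ^ 6 * (n : ℝ) ^ 2 := by exact_mod_cast hn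
  have h2 : (n : ℝ) ^ 2 ≤ (C * (k : ℝ) ^ d) ^ 2 := by gcongr
  have h3 : (2 : ℝ) ^ k ≤ 32 * C ^ 2 * (k : ℝ) ^ (2 * d + 6) := by
    calc (2 : ℝ) ^ k ≤ 32 * (k : ℝ) ^ 6 * (n : ℝ) ^ 2 := h1
      _ ≤ 32 * (k : ℝ) ^ 6 * (C * (k : ℝ) ^ d) ^ 2 := by gcongr
      _ = 32 * C ^ 2 * (k : ℝ) ^ (2 * d + 6) := by ring
  rw [div_lt_div_iff₀ (by positivity) (by positivity)] at hk
  have h4 : (0 : ℝ) < (k : ℝ) ^ (2 * d + 6) := by positivity
  nlinarith

/-- For every `k ≥ 4` there is an inclusion-minimal configuration universal for the `k`-vertex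
planar graphs with `n` points, `2 ^ k ≤ 32 k ^ 6 n ^ 2`; hence no polynomial bounds the number
of points of all such configurations. -/
theorem ExponentialObstacles.result :
    (∀ k : ℕ, 4 ≤ k → ∃ S : Finset (ℝ × ℝ), IsObstacle k S ∧
      2 ^ k ≤ 32 * k ^ 6 * S.card ^ 2) ∧
    ¬ ∃ P : Polynomial ℝ, ∀ k : ℕ, 1 ≤ k → ∀ S : Finset (ℝ × ℝ), IsObstacle k S →
      (S.card : ℝ) ≤ P.eval (k : ℝ) := by
  refine ⟨ExponentialObstacles.lower, ?_⟩
  rintro ⟨P, hP⟩
  obtain ⟨k, hk, h⟩ := ExponentialObstacles.poly_lt P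
  obtain ⟨S, hS, hb⟩ := ExponentialObstacles.lower k hk
  have h1 := h _ hb
  have h2 := hP k (by omega) S hS
  linarith

end Pool.Agent.Results.MP_87448f_co
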